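import Mathlib

/-!
# Motzkin, Delannoy, Schröder numbers, Narayana polynomials and the Pfaffian
-/

set_option autoImplicit false

namespace Pool.Agent.N340.PF

open Finset Polynomial

/-- the Catalan number `C_k = (1 / (k + 1)) binom(2k, k)` -/
def cat (k : ℕ) : ℚ := ((2 * k).choose k : ℚ) / (k + 1)

/-- the Motzkin number `M_n = ∑_{k ≤ n} binom(n, 2k) C_k` -/
def mot (n : ℕ) : ℚ := ∑ k ∈ range (n + 1), (n.choose (2 * k) : ℚ) * cat k

/-- the central Delannoy number `D_n = ∑_{k ≤ n} binom(n, k) binom(n + k, k)` -/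
def del (n : ℕ) : ℚ := ∑ k ∈ range (n + 1), (n.choose k : ℚ) * ((n + k).choose k : ℚ)

/-- the Schröder number `S_n = ∑_{k ≤ n} binom(n + k, 2k) C_k` -/
def sch (n : ℕ) : ℚ := ∑ k ∈ range (n + 1), ((n + k).choose (2 * k) : ℚ) * cat k

/-- the Narayana polynomial: `N_0(a) = 1`, `N_n(a) = ∑_{k=1}^n (1/n) binom(n, k) binom(n, k-1) a^k`
(the term with `k = 0` in the page's sum is `0`) -/
noncomputable def nar (n : ℕ) : ℚ[X] :=
  if n = 0 then 1 else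
    ∑ k ∈ Icc 1 n, C (1 / (n : ℚ) * (n.choose k : ℚ) * (n.choose (k - 1) : ℚ)) * X ^ k

variable {R : Type*} [CommRing R] [Algebra ℚ R]

/-- the `2n × 2n` matrix `((j - i) x_{i+j-s})_{1 ≤ i, j ≤ 2n}`; its row `i` and column `j` are
indexed by `i - 1` and `j - 1` in `Fin (2 * n)` -/
def skewHankel (x : ℕ → R) (s n : ℕ) : Matrix (Fin (2 * n)) (Fin (2 * n)) R :=
  Matrix.of fun i j : Fin (2 * n) =>
    ((((j : ℕ) + 1 : ℕ) : R) - (((i : ℕ) + 1 : ℕ) : R)) * x (((i : ℕ) + 1) + ((j : ℕ) + 1) - s)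

/-- the Pfaffian of a `2n × 2n` matrix over a commutative `ℚ`-algebra:
`(1 / (2^n n!)) ∑_σ sgn(σ) ∏_{k=1}^n A_{σ(2k-1), σ(2k)}` -/
noncomputable def Pf (n : ℕ) (A : Matrix (Fin (2 * n)) (Fin (2 * n)) R) : R :=
  algebraMap ℚ R (1 / (2 ^ n * (n.factorial : ℚ))) * ∑ σ : Equiv.Perm (Fin (2 * n)),
    ((Equiv.Perm.sign σ : ℤ) : R) *
      ∏ k : Fin n, A (σ ⟨2 * (k : ℕ), by omega⟩) (σ ⟨2 * (k : ℕ) + 1, by omega⟩)

end Pool.Agent.N340.PF
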