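import Pool.Agent.N337.AscMain

/-!
# Skew Hankel Pfaffians for the semicircle and arcsine functionals
-/

set_option autoImplicit false

namespace Pool.Agent.N340.PF

open Finset Polynomial Pool.Agent.Helper929 Pool.Agent.N337.Asc

section laurent

variable {K : Type*} [Field K]

/-- the constant term -/
noncomputable def CT : LaurentPolynomial K →ₗ[K] K where
  toFun f := f.coeff 0
  map_add' f g := by simp
  map_smul' c f := by simp

/-- constants -/
noncomputable def kap : K →+* LaurentPolynomial K := LaurentPolynomial.C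

/-- the variable `z` -/
noncomputable def t : LaurentPolynomial K := LaurentPolynomial.T 1

/-- the inverse of the variable `z` -/
noncomputable def s : LaurentPolynomial K := LaurentPolynomial.T (-1)

lemma ts : (t : LaurentPolynomial K) * s = 1 := by
  rw [t, s, ← LaurentPolynomial.T_add]; simp

lemma CT_kap_mul (a : K) (f : LaurentPolynomial K) : CT (kap a * f) = a * CT f := by
  rw [kap, ← LaurentPolynomial.smul_eq_C_mul, map_smul, smul_eq_mul]

lemma CT_mono (i j : ℕ) : CT ((t : LaurentPolynomial K) ^ i * s ^ j) = if i = j then 1 else 0 := by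
  rw [t, s, LaurentPolynomial.T_pow, LaurentPolynomial.T_pow, ← LaurentPolynomial.T_add]
  change (LaurentPolynomial.T _ : LaurentPolynomial K).coeff 0 = _
  rw [LaurentPolynomial.T_apply]
  by_cases h : i = j
  · rw [if_pos h, if_pos (by subst h; ring)]
  · rw [if_neg h, if_neg]
    intro h'
    apply h
    have : (i : ℤ) = j := by linarith
    exact_mod_cast this

lemma CT_t (i : ℕ) : CT ((t : LaurentPolynomial K) ^ i) = if i = 0 then 1 else 0 := by
  have := CT_mono (K := K) i 0
  rwa [pow_zero, mul_one] at this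

lemma CT_s (i : ℕ) : CT ((s : LaurentPolynomial K) ^ i) = if i = 0 then 1 else 0 := by
  have := CT_mono (K := K) 0 i
  rw [pow_zero, one_mul] at this
  rw [this]
  simp [eq_comm]

variable (b l : K)

/-- `z + b + l / z` -/
noncomputable def Xb : LaurentPolynomial K := t + kap b + kap l * s

/-- substitution `x = z + b + l / z` -/
noncomputable def Phi : K[X] →ₐ[K] LaurentPolynomial K := Polynomial.aeval (Xb b l)

lemma Phi_X : Phi b l X = Xb b l := by simp [Phi]

lemma Phi_C (a : K) : Phi b l (C a) = kap a := by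
  rw [Phi, aeval_C]
  rfl

/-- rescaled Chebyshev polynomials of the first kind -/
noncomputable def P : ℕ → K[X]
  | 0 => 2
  | 1 => X - C b
  | (n + 2) => (X - C b) * P (n + 1) - C l * P n

/-- rescaled Chebyshev polynomials of the second kind -/
noncomputable def U : ℕ → K[X]
  | 0 => 1
  | 1 => X - C b
  | (n + 2) => (X - C b) * U (n + 1) - C l * U n

lemma P_rec (n : ℕ) : P b l (n + 2) = (X - C b) * P b l (n + 1) - C l * P b l n := rfl

lemma U_rec (n : ℕ) : U b l (n + 2) = (X - C b) * U b l (n + 1) - C l * U b l n := rfl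

lemma Phi_XC : Phi b l (X - C b) = t + kap l * s := by
  rw [map_sub, Phi_X, Phi_C, Xb]; ring

lemma Phi_P : ∀ n : ℕ, Phi b l (P b l n) = t ^ n + kap l ^ n * s ^ n
  | 0 => by
    rw [P]
    simp only [map_ofNat, pow_zero]
    norm_num
  | 1 => by
    rw [P, Phi_XC]; ring
  | (n + 2) => by
    rw [P_rec, map_sub, map_mul, map_mul, Phi_XC, Phi_C, Phi_P (n + 1), Phi_P n]
    linear_combination (kap l ^ (n + 1) * s ^ n + kap l * t ^ n) * (ts (K := K))

lemma Phi_U : ∀ n : ℕ, Phi b l (U b l n) * (t - kap l * s) =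
    t ^ (n + 1) - kap l ^ (n + 1) * s ^ (n + 1)
  | 0 => by
    rw [U]
    simp only [map_one]
    ring
  | 1 => by
    rw [U, Phi_XC]; ring
  | (n + 2) => by
    have h1 := Phi_U (n + 1)
    have h2 := Phi_U n
    rw [U_rec, map_sub, map_mul, map_mul, Phi_XC, Phi_C]
    linear_combination (t + kap l * s) * h1 - kap l * h2 +
      (- kap l ^ (n + 2) * s ^ (n + 1) + kap l * t ^ (n + 1)) * (ts (K := K))

lemma P_eq : ∀ n : ℕ, P b l (n + 2) = U b l (n + 2) - C l * U b l n
  | 0 => by
    rw [P_rec, U_rec]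
    simp only [P, U]
    ring
  | 1 => by
    rw [P_rec, P_rec, U_rec, U_rec]
    simp only [P, U]
    ring
  | (n + 2) => by
    rw [P_rec, P_eq (n + 1), P_eq n, U_rec (n := n + 2), U_rec (n := n)]
    ring

lemma P_der : ∀ n : ℕ, derivative (P b l (n + 1)) = ((n : K[X]) + 1) * U b l n
  | 0 => by
    simp [P, U]
  | 1 => by
    rw [P_rec]
    simp only [P, U]
    simp
    ring
  | (n + 2) => by
    rw [P_rec, derivative_sub, derivative_mul, derivative_mul, P_der (n + 1), P_der n,
      P_eq b l n]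
    have h := U_rec b l n
    simp only [derivative_sub, derivative_X, derivative_C]
    push_cast
    linear_combination (-((n : K[X]) + 2)) * h

/-- monic of degree `n` -/
def Mon (p : K[X]) (n : ℕ) : Prop := p.natDegree ≤ n ∧ p.coeff n = 1

lemma Mon_step {p q : K[X]} {n : ℕ} (hp : Mon p n) (hq : q.natDegree ≤ n) :
    Mon ((X - C b) * p - C l * q) (n + 1) := by
  obtain ⟨h1, h2⟩ := hp
  constructor
  · refine (natDegree_sub_le _ _).trans (max_le ?_ ?_)
    · refine natDegree_mul_le.trans ?_
      rw [natDegree_X_sub_C]; omega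
    · refine (natDegree_C_mul_le _ _).trans (by omega)
  · rw [coeff_sub, sub_mul, coeff_sub, coeff_X_mul, h2, coeff_C_mul, coeff_C_mul,
      coeff_eq_zero_of_natDegree_lt (show p.natDegree < n + 1 by omega),
      coeff_eq_zero_of_natDegree_lt (show q.natDegree < n + 1 by omega)]
    ring

lemma Mon_sub {p q : K[X]} {n : ℕ} (c : K) (hp : Mon p n) (hq : q.natDegree < n) :
    Mon (p - C c * q) n := by
  obtain ⟨h1, h2⟩ := hp
  constructor
  · refine (natDegree_sub_le _ _).trans (max_le h1 ?_)
    exact (natDegree_C_mul_le _ _).trans hq.le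
  · rw [coeff_sub, h2, coeff_C_mul, coeff_eq_zero_of_natDegree_lt hq]
    ring

lemma Mon_P : ∀ n : ℕ, Mon (P b l (n + 1)) (n + 1)
  | 0 => by
    rw [P]
    refine ⟨by rw [natDegree_X_sub_C], ?_⟩
    simp
  | 1 => by
    rw [P_rec]
    apply Mon_step b l
    · rw [P]
      exact ⟨by rw [natDegree_X_sub_C], by simp⟩
    · rw [P]
      simp
  | (n + 2) => by
    rw [P_rec]
    exact Mon_step b l (Mon_P (n + 1)) ((Mon_P n).1.trans (by omega))

end laurent

section skew

variable {K : Type*} [Field K]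

/-- the skew form `L (f g' - f' g)` -/
noncomputable def sk (L : K[X] →ₗ[K] K) (f g : K[X]) : K :=
  L (f * derivative g - derivative f * g)

lemma sk_skew (L : K[X] →ₗ[K] K) (f g : K[X]) : sk L f g = - sk L g f := by
  unfold sk
  rw [← map_neg]
  congr 1
  ring

/-- the skew form as a bilinear form -/
noncomputable def BF (L : K[X] →ₗ[K] K) : K[X] →ₗ[K] K[X] →ₗ[K] K :=
  LinearMap.mk₂ K (sk L)
    (fun f f' h => by
      unfold sk
      rw [derivative_add, ← L.map_add]
      congr 1
      ring)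
    (fun c f h => by
      unfold sk
      rw [derivative_smul, ← L.map_smul]
      congr 1
      simp only [smul_eq_C_mul]
      ring)
    (fun f h h' => by
      unfold sk
      rw [derivative_add, ← L.map_add]
      congr 1
      ring)
    (fun c f h => by
      unfold sk
      rw [derivative_smul, ← L.map_smul]
      congr 1
      simp only [smul_eq_C_mul]
      ring)

lemma BF_apply (L : K[X] →ₗ[K] K) (f h : K[X]) : BF L f h = sk L f h := rfl

lemma sk_monomials (L : K[X] →ₗ[K] K) (i j : ℕ) :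
    sk L (X ^ i) (X ^ j) = ((j : K) - i) * L (X ^ (i + j - 1)) := by
  have key : (X ^ i * derivative (X ^ j) - derivative (X ^ i) * X ^ j : K[X]) =
      ((j : K) - i) • X ^ (i + j - 1) := by
    rw [derivative_X_pow, derivative_X_pow, smul_eq_C_mul, C_sub]
    rcases i with _ | i
    · rcases j with _ | j
      · simp
      · simp
    · rcases j with _ | j
      · simp
        ring
      · rw [show i + 1 + (j + 1) - 1 = i + j + 1 by omega]
        simp only [Nat.add_sub_cancel, map_natCast]
        ring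
  unfold sk
  rw [key, map_smul, smul_eq_mul]

/-- change of basis -/
theorem pf_change' [CharZero K] (L : K[X] →ₗ[K] K) (B : ℕ → K[X]) (hB : ∀ i, Mon (B i) i)
    (N : ℕ) :
    pf N (Matrix.of fun i j : Fin N => sk L (X ^ (i : ℕ)) (X ^ (j : ℕ))) =
      pf N (Matrix.of fun i j : Fin N => sk L (B i) (B j)) := by
  set A : Matrix (Fin N) (Fin N) K :=
    Matrix.of fun i j : Fin N => sk L (X ^ (i : ℕ)) (X ^ (j : ℕ)) with hA
  set Q : Matrix (Fin N) (Fin N) K := Matrix.of fun i k : Fin N => (B i).coeff k with hQ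
  have hexp : ∀ i : Fin N, B i = ∑ k : Fin N, (B i).coeff k • (X : K[X]) ^ (k : ℕ) := by
    intro i
    conv_lhs => rw [(B i).as_sum_range' N ((hB i).1.trans_lt i.2)]
    rw [Finset.sum_range]
    apply Finset.sum_congr rfl
    intro k _
    rw [smul_eq_C_mul, C_mul_X_pow_eq_monomial]
  have h1 : ∀ i j, A i j = - A j i := fun i j => sk_skew _ _ _
  have h2 := pf_gram A h1 Q
  have h3 : Q.det = 1 := by
    rw [Matrix.det_of_isLowerTriangular]
    · apply Finset.prod_eq_one
      intro i _
      rw [hQ, Matrix.of_apply]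
      exact (hB i).2
    · intro i j hij
      rw [hQ, Matrix.of_apply]
      apply coeff_eq_zero_of_natDegree_lt
      refine (hB i).1.trans_lt ?_
      exact hij
  have h4 : Q * A * Q.transpose =
      Matrix.of fun i j : Fin N => sk L (B i) (B j) := by
    ext i j
    rw [Matrix.of_apply, ← BF_apply, hexp i, hexp j]
    simp only [map_sum, LinearMap.sum_apply, map_smul, LinearMap.smul_apply, Matrix.mul_apply,
      Matrix.transpose_apply, hQ, hA, Matrix.of_apply, smul_eq_mul, BF_apply]
    apply Finset.sum_congr rfl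
    intro k _
    rw [Finset.sum_mul, Finset.mul_sum]
    apply Finset.sum_congr rfl
    intro m _
    ring
  rw [h4, h3, one_mul] at h2
  exact h2.symm

/-- the Pfaffian of a tridiagonal skew matrix -/
theorem pf_tri (S : ℕ → ℕ → K) (h1 : ∀ i j, S i j = - S j i) (h0 : ∀ i, S i i = 0)
    (h2 : ∀ i d, S i (i + d + 2) = 0) (n : ℕ) :
    pf (2 * n) (Matrix.of fun i j : Fin (2 * n) => S i j) =
      ∏ k ∈ range n, S (2 * k) (2 * k + 1) := by
  have hb : ∀ i j, S i j = band (fun i => S i (i + 1)) (fun _ => 0) i j := by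
    intro i j
    unfold band
    by_cases c1 : j = i + 1
    · rw [if_pos c1, c1]
    · rw [if_neg c1]
      by_cases c2 : j = i + 2
      · rw [if_pos c2, c2]; exact h2 i 0
      · rw [if_neg c2]
        by_cases c3 : i = j + 1
        · rw [if_pos c3, c3, h1]
        · rw [if_neg c3]
          by_cases c4 : i = j + 2
          · rw [if_pos c4, c4, h1, neg_zero, neg_eq_zero]; exact h2 j 0
          · rw [if_neg c4]
            rcases Nat.lt_trichotomy i j with h | h | h
            · obtain ⟨d, rfl⟩ := Nat.exists_eq_add_of_le (show i + 2 ≤ j by omega)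
              rw [show i + 2 + d = i + d + 2 by ring]; exact h2 i d
            · rw [h]; exact h0 j
            · obtain ⟨d, rfl⟩ := Nat.exists_eq_add_of_le (show j + 2 ≤ i by omega)
              rw [h1, neg_eq_zero, show j + 2 + d = j + d + 2 by ring]; exact h2 j d
  have hF : ∀ n, Fb (fun i => S i (i + 1)) (fun _ => 0) (2 * n) 0 =
      ∏ k ∈ range n, S (2 * k) (2 * k + 1) := by
    intro n
    induction n using Nat.strong_induction_on with
    | _ n ih =>
      rcases n with _ | n
      · rw [mul_zero, Fb_zero, range_zero, prod_empty]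
      · rcases n with _ | n
        · rw [show 2 * (0 + 1) = 2 by rfl, Fb_two]
          simp
        · rw [Fb_right, ih (n + 1) (by omega), prod_range_succ (n := n + 1)]
          rw [show 0 + 2 * n + 2 = 2 * (n + 1) by ring]
          ring
  rw [← hF n]
  unfold Fb
  congr 1
  ext i j
  rw [Matrix.of_apply, Matrix.of_apply, zero_add, zero_add]
  exact hb i j

end skew

section semicircle

variable {K : Type*} [Field K] (b l : K)

/-- the semicircle functional with mean `b`, variance `l`, total mass `c` -/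
noncomputable def Ls (c : K) : K[X] →ₗ[K] K where
  toFun f := c * CT (Phi b l f * ((t - kap l * s) * s))
  map_add' f g := by
    rw [map_add, add_mul, map_add, mul_add]
  map_smul' a f := by
    rw [map_smul, smul_mul_assoc, map_smul]
    simp only [smul_eq_mul, RingHom.id_apply]
    ring

lemma Ls_apply (c : K) (f : K[X]) : Ls b l c f = c * CT (Phi b l f * ((t - kap l * s) * s)) := rfl

lemma kap_pow (a : K) (n : ℕ) : kap a ^ n = kap (a ^ n) := by rw [map_pow]

lemma Ls_U (c : K) (n : ℕ) : Ls b l c (U b l n) = if n = 0 then c else 0 := by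
  rw [Ls_apply, ← mul_assoc, Phi_U, sub_mul]
  have e1 : (t : LaurentPolynomial K) ^ (n + 1) * s = t ^ n := by
    linear_combination t ^ n * (ts (K := K))
  have e2 : kap l ^ (n + 1) * (s : LaurentPolynomial K) ^ (n + 1) * s =
      kap (l ^ (n + 1)) * s ^ (n + 2) := by
    rw [kap_pow]; ring
  rw [e1, e2, map_sub, CT_kap_mul, CT_t, CT_s, if_neg (show ¬ (n + 2 = 0) by omega)]
  split_ifs <;> ring

lemma Ls_PU (c : K) (m n : ℕ) (hm : 1 ≤ m) : Ls b l c (P b l m * U b l n) =
    if m = n then c * l ^ m else if m = n + 2 then - (c * l ^ (n + 1)) else 0 := by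
  rw [Ls_apply, map_mul (Phi b l), mul_assoc (Phi b l (P b l m)),
    ← mul_assoc (Phi b l (U b l n)), Phi_U, Phi_P]
  have e1 : (t ^ m + kap l ^ m * s ^ m) * ((t ^ (n + 1) - kap l ^ (n + 1) * s ^ (n + 1)) * s) =
      (t : LaurentPolynomial K) ^ (m + n) - kap (l ^ (n + 1)) * (t ^ m * s ^ (n + 2)) +
      kap (l ^ m) * (t ^ n * s ^ m) - kap (l ^ (m + n + 1)) * s ^ (m + n + 2) := by
    rw [← kap_pow, ← kap_pow, ← kap_pow]
    linear_combination (t ^ (m + n) + kap l ^ m * s ^ m * t ^ n) * (ts (K := K))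
  rw [e1, map_sub, map_add, map_sub, CT_kap_mul, CT_kap_mul, CT_kap_mul, CT_t, CT_s, CT_mono,
    CT_mono, if_neg (show ¬ (m + n = 0) by omega), if_neg (show ¬ (m + n + 2 = 0) by omega)]
  by_cases h1 : m = n
  · subst h1
    rw [if_neg (by omega), if_pos rfl, if_pos rfl]
    ring
  · have h1' : ¬ n = m := fun h => h1 h.symm
    simp only [if_neg h1, if_neg h1']
    split_ifs <;> ring

/-- the basis -/
noncomputable def Bs (n : ℕ) : K[X] := if n = 0 then 1 else P b l n

lemma Mon_Bs (n : ℕ) : Mon (Bs b l n) n := by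
  unfold Bs
  rcases n with _ | n
  · rw [if_pos rfl]
    exact ⟨by simp, by simp⟩
  · rw [if_neg (by omega)]
    exact Mon_P b l n

lemma sk_Bs (c : K) (i d : ℕ) : sk (Ls b l c) (Bs b l i) (Bs b l (i + d + 1)) =
    if d = 0 then c * (2 * i + 1) * l ^ i else 0 := by
  unfold sk Bs
  rw [if_neg (show ¬ (i + d + 1 = 0) by omega), P_der]
  rcases i with _ | i
  · rw [if_pos rfl]
    have e : (1 * ((((0 + d : ℕ) : K[X]) + 1) * U b l (0 + d)) - derivative 1 * P b l (0 + d + 1)) =
        ((d : K) + 1) • U b l d := by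
      rw [zero_add, derivative_one, smul_eq_C_mul, C_add, C_1, C_eq_natCast]
      ring
    rw [e, map_smul, Ls_U]
    rcases d with _ | d
    · simp
    · simp
  · rw [if_neg (by omega), P_der]
    have e : (P b l (i + 1) * ((((i + 1 + d : ℕ) : K[X]) + 1) * U b l (i + 1 + d)) -
        ((i : K[X]) + 1) * U b l i * P b l (i + 1 + d + 1)) =
        ((i : K) + 1 + d + 1) • (P b l (i + 1) * U b l (i + 1 + d)) -
        ((i : K) + 1) • (P b l (i + 1 + d + 1) * U b l i) := by
      rw [smul_eq_C_mul, smul_eq_C_mul]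
      simp only [C_add, C_1, C_eq_natCast]
      push_cast
      ring
    rw [e, map_sub, map_smul, map_smul, Ls_PU _ _ _ _ _ (by omega), Ls_PU _ _ _ _ _ (by omega),
      if_neg (show ¬ (i + 1 = i + 1 + d + 2) by omega), if_neg (show ¬ (i + 1 + d + 1 = i) by omega)]
    by_cases hd : d = 0
    · subst hd
      rw [if_pos (by omega), if_pos (by omega), if_pos rfl]
      simp only [smul_eq_mul]
      push_cast
      ring
    · rw [if_neg (by omega), if_neg (by omega), if_neg hd]
      simp

lemma sk_self (L : K[X] →ₗ[K] K) (f : K[X]) : sk L f f = 0 := by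
  unfold sk
  rw [show f * derivative f - derivative f * f = 0 by ring, map_zero]

/-- the skew Hankel Pfaffian of the semicircle functional -/
theorem pf_semi [CharZero K] (c : K) (n : ℕ) :
    pf (2 * n) (Matrix.of fun i j : Fin (2 * n) =>
      (((j : ℕ) : K) - ((i : ℕ) : K)) * Ls b l c (X ^ ((i : ℕ) + (j : ℕ) - 1))) =
    c ^ n * l ^ (n * (n - 1)) * ∏ k ∈ range n, (4 * (k : K) + 1) := by
  have h1 : (Matrix.of fun i j : Fin (2 * n) =>
      (((j : ℕ) : K) - ((i : ℕ) : K)) * Ls b l c (X ^ ((i : ℕ) + (j : ℕ) - 1))) =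
      Matrix.of fun i j : Fin (2 * n) => sk (Ls b l c) (X ^ (i : ℕ)) (X ^ (j : ℕ)) := by
    ext i j
    rw [Matrix.of_apply, Matrix.of_apply, sk_monomials]
  rw [h1, pf_change' (Ls b l c) (Bs b l) (Mon_Bs b l),
    pf_tri (fun i j => sk (Ls b l c) (Bs b l i) (Bs b l j)) (fun i j => sk_skew _ _ _)
      (fun i => sk_self _ _)]
  · have h2 : ∀ k : ℕ, sk (Ls b l c) (Bs b l (2 * k)) (Bs b l (2 * k + 1)) =
        c * (4 * (k : K) + 1) * l ^ (2 * k) := by
      intro k
      have := sk_Bs b l c (2 * k) 0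
      rw [if_pos rfl, add_zero] at this
      rw [this]
      push_cast
      ring
    simp only [h2]
    induction n with
    | zero => simp
    | succ n ih =>
      rw [prod_range_succ, ih, prod_range_succ]
      · have e : (n + 1) * (n + 1 - 1) = n * (n - 1) + 2 * n := by
          rcases n with _ | n
          · simp
          · simp only [Nat.add_sub_cancel]
            ring
        rw [e, pow_add, pow_succ]
        ring
      · ext i j
        rw [Matrix.of_apply, Matrix.of_apply, sk_monomials]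
  · intro i d
    have := sk_Bs b l c i (d + 1)
    rw [if_neg (by omega)] at this
    exact this

end semicircle

section arcsine

variable {K : Type*} [Field K] (b l : K)

lemma C2 : (C (2 : K) : K[X]) = 2 := map_ofNat C 2

lemma C3 : (C (3 : K) : K[X]) = 3 := map_ofNat C 3

lemma C4 : (C (4 : K) : K[X]) = 4 := map_ofNat C 4

/-- the arcsine functional -/
noncomputable def La : K[X] →ₗ[K] K := CT ∘ₗ (Phi b l).toLinearMap

lemma La_apply (f : K[X]) : La b l f = CT (Phi b l f) := rfl

lemma La_P (n : ℕ) (hn : 1 ≤ n) : La b l (P b l n) = 0 := by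
  rw [La_apply, Phi_P, map_add, kap_pow, CT_kap_mul, CT_t, CT_s, if_neg (by omega)]
  ring

lemma La_PP (m n : ℕ) (hm : 1 ≤ m) : La b l (P b l m * P b l n) =
    if m = n then 2 * l ^ m else 0 := by
  rw [La_apply, map_mul (Phi b l), Phi_P, Phi_P]
  have e1 : (t ^ m + kap l ^ m * s ^ m) * (t ^ n + kap l ^ n * s ^ n) =
      (t : LaurentPolynomial K) ^ (m + n) + kap (l ^ n) * (t ^ m * s ^ n) +
      kap (l ^ m) * (t ^ n * s ^ m) + kap (l ^ (m + n)) * s ^ (m + n) := by
    rw [← kap_pow, ← kap_pow, ← kap_pow]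
    ring
  rw [e1, map_add, map_add, map_add, CT_kap_mul, CT_kap_mul, CT_kap_mul, CT_t, CT_s, CT_mono,
    CT_mono, if_neg (show ¬ (m + n = 0) by omega)]
  by_cases h1 : m = n
  · subst h1
    simp only [if_true]
    ring
  · have h1' : ¬ n = m := fun h => h1 h.symm
    simp only [if_neg h1, if_neg h1']
    ring

/-- the basis; `(Ba (n + 2))' = (n + 2) P (n + 1)` -/
noncomputable def Ba : ℕ → K[X]
  | 0 => 1
  | 1 => P b l 1
  | 2 => P b l 2
  | (n + 3) => P b l (n + 3) - C ((n + 3) / (n + 1) * l) * P b l (n + 1)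

lemma Mon_Ba : ∀ n : ℕ, Mon (Ba b l n) n
  | 0 => ⟨by simp [Ba], by simp [Ba]⟩
  | 1 => Mon_P b l 0
  | 2 => Mon_P b l 1
  | (n + 3) => Mon_sub _ (Mon_P b l (n + 2)) ((Mon_P b l n).1.trans_lt (by omega))

lemma Ba_der_one : derivative (Ba b l 1) = 1 := by
  rw [Ba, P_der]
  simp [U]

lemma Ba_der [CharZero K] : ∀ n : ℕ, derivative (Ba b l (n + 2)) =
    ((n : K[X]) + 2) * P b l (n + 1)
  | 0 => by
    rw [Ba, P_der]
    simp only [U, P]
    push_cast
    ring
  | (n + 1) => by
    have hn : (n : K) + 1 ≠ 0 := by exact_mod_cast Nat.succ_ne_zero n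
    rw [Ba, derivative_sub, derivative_C_mul, P_der, P_der, P_eq]
    have h : (C (((n : K) + 3) / (n + 1) * l) : K[X]) * (((n : K[X]) + 1) * U b l n) =
        ((n : K[X]) + 3) * C l * U b l n := by
      have h1 : ((n : K[X]) + 1) = C ((n : K) + 1) := by simp
      have h2 : ((n : K[X]) + 3) = C ((n : K) + 3) := by simp [C3]
      rw [h1, h2, ← mul_assoc, ← C_mul, ← C_mul]
      congr 2
      field_simp
    rw [h]
    push_cast
    ring

lemma La_Ba (n : ℕ) : La b l (Ba b l (n + 1)) = 0 := by
  rcases n with _ | _ | n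
  · exact La_P b l 1 (by omega)
  · exact La_P b l 2 (by omega)
  · change La b l (P b l (n + 3) - C ((n + 3) / (n + 1) * l) * P b l (n + 1)) = 0
    rw [map_sub, ← smul_eq_C_mul, map_smul, La_P b l _ (by omega), La_P b l _ (by omega)]
    simp

lemma La_BaP_far (i m : ℕ) (h : i + 1 < m) : La b l (Ba b l (i + 1) * P b l m) = 0 := by
  rcases i with _ | _ | i
  · change La b l (P b l 1 * P b l m) = 0
    rw [La_PP b l _ _ (by omega), if_neg (by omega)]
  · change La b l (P b l 2 * P b l m) = 0
    rw [La_PP b l _ _ (by omega), if_neg (by omega)]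
  · change La b l ((P b l (i + 3) - C ((i + 3) / (i + 1) * l) * P b l (i + 1)) * P b l m) = 0
    rw [sub_mul, map_sub, mul_assoc, ← smul_eq_C_mul, map_smul, La_PP b l _ _ (by omega),
      La_PP b l _ _ (by omega), if_neg (by omega), if_neg (by omega)]
    simp

lemma La_PBa_far (i m : ℕ) (h : m + 3 < i) : La b l (P b l (m + 1) * Ba b l i) = 0 := by
  rcases i with _ | _ | _ | i
  · omega
  · omega
  · omega
  · change La b l (P b l (m + 1) * (P b l (i + 3) - C ((i + 3) / (i + 1) * l) * P b l (i + 1))) = 0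
    have e : P b l (m + 1) * (P b l (i + 3) - C ((i + 3) / (i + 1) * l) * P b l (i + 1)) =
        P b l (m + 1) * P b l (i + 3) - (((i : K) + 3) / (i + 1) * l) •
          (P b l (m + 1) * P b l (i + 1)) := by
      rw [smul_eq_C_mul]; ring
    rw [e, map_sub, map_smul, La_PP b l _ _ (by omega), La_PP b l _ _ (by omega),
      if_neg (by omega), if_neg (by omega)]
    simp

lemma sk_Ba_far [CharZero K] (i d : ℕ) : sk (La b l) (Ba b l i) (Ba b l (i + d + 2)) = 0 := by
  unfold sk
  rw [Ba_der]
  rcases i with _ | _ | i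
  · have e : Ba b l 0 * ((((0 + d : ℕ) : K[X]) + 2) * P b l (0 + d + 1)) -
        derivative (Ba b l 0) * Ba b l (0 + d + 2) = ((d : K) + 2) • P b l (d + 1) := by
      rw [zero_add, smul_eq_C_mul]
      simp [Ba, C2]
    rw [e, map_smul, La_P b l _ (by omega), smul_zero]
  · have e : Ba b l 1 * ((((0 + 1 + d : ℕ) : K[X]) + 2) * P b l (0 + 1 + d + 1)) -
        derivative (Ba b l 1) * Ba b l (0 + 1 + d + 2) =
        ((d : K) + 3) • (Ba b l (0 + 1) * P b l (d + 2)) - Ba b l (d + 2 + 1) := by
      rw [Ba_der_one, smul_eq_C_mul, show 0 + 1 + d + 1 = d + 2 by ring,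
        show 0 + 1 + d + 2 = d + 2 + 1 by ring, zero_add]
      simp [C3]
      ring
    rw [e, map_sub, map_smul, La_BaP_far b l _ _ (by omega), La_Ba, smul_zero, sub_zero]
  · have e : Ba b l (i + 2) * ((((i + 2 + d : ℕ) : K[X]) + 2) * P b l (i + 2 + d + 1)) -
        derivative (Ba b l (i + 2)) * Ba b l (i + 2 + d + 2) =
        ((i : K) + d + 4) • (Ba b l (i + 1 + 1) * P b l (i + 2 + d + 1)) -
        ((i : K) + 2) • (P b l (i + 1) * Ba b l (i + 2 + d + 2)) := by
      rw [Ba_der, smul_eq_C_mul, smul_eq_C_mul]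
      simp [C2, C4]
      ring
    rw [show i + 1 + 1 + d + 1 = i + 2 + d + 1 by ring, show i + 1 + 1 + d + 2 = i + 2 + d + 2 by ring,
      show i + 1 + 1 = i + 2 by ring, e, map_sub, map_smul, map_smul,
      La_BaP_far b l _ _ (by omega), La_PBa_far b l _ _ (by omega)]
    simp

lemma sk_Ba_zero [CharZero K] : sk (La b l) (Ba b l 0) (Ba b l 1) = 1 := by
  unfold sk
  rw [Ba_der_one]
  have e : Ba b l 0 * 1 - derivative (Ba b l 0) * Ba b l 1 = 1 := by
    simp [Ba]
  rw [e, La_apply, map_one]
  have := CT_t (K := K) 0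
  rwa [pow_zero, if_pos rfl] at this

lemma sk_Ba_even [CharZero K] (k : ℕ) :
    sk (La b l) (Ba b l (2 * (k + 1))) (Ba b l (2 * (k + 1) + 1)) =
      2 * l ^ (2 * (k + 1)) * (2 * k + 3) * (4 * k + 3) / (2 * k + 1) := by
  unfold sk
  rw [show 2 * (k + 1) + 1 = (2 * k + 1) + 2 by ring, show 2 * (k + 1) = 2 * k + 2 by ring,
    Ba_der, Ba_der]
  have e : Ba b l (2 * k + 2) * ((((2 * k + 1 : ℕ) : K[X]) + 2) * P b l (2 * k + 1 + 1)) -
      (((2 * k : ℕ) : K[X]) + 2) * P b l (2 * k + 1) * Ba b l (2 * k + 1 + 2) =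
      (2 * (k : K) + 3) • (Ba b l (2 * k + 2) * P b l (2 * k + 2)) -
      (2 * (k : K) + 2) • (P b l (2 * k + 1) * Ba b l (2 * k + 3)) := by
    rw [smul_eq_C_mul, smul_eq_C_mul, show 2 * k + 1 + 1 = 2 * k + 2 by ring,
      show 2 * k + 1 + 2 = 2 * k + 3 by ring]
    simp [C2, C3]
    ring
  rw [e, map_sub, map_smul, map_smul]
  have h1 : La b l (Ba b l (2 * k + 2) * P b l (2 * k + 2)) = 2 * l ^ (2 * k + 2) := by
    rcases k with _ | k
    · change La b l (P b l 2 * P b l 2) = _
      rw [La_PP b l _ _ (by omega), if_pos rfl]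
    · rw [show 2 * (k + 1) + 2 = (2 * k + 1) + 3 by ring]
      change La b l ((P b l ((2 * k + 1) + 3) - C ((((2 * k + 1 : ℕ) : K) + 3) /
        (((2 * k + 1 : ℕ) : K) + 1) * l) * P b l ((2 * k + 1) + 1)) * P b l ((2 * k + 1) + 3)) = _
      rw [sub_mul, map_sub, mul_assoc, ← smul_eq_C_mul, map_smul, La_PP b l _ _ (by omega),
        La_PP b l _ _ (by omega), if_pos rfl, if_neg (by omega)]
      simp
  have h2 : La b l (P b l (2 * k + 1) * Ba b l (2 * k + 3)) =
      - ((2 * (k : K) + 3) / (2 * k + 1) * l * (2 * l ^ (2 * k + 1))) := by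
    have e : P b l (2 * k + 1) * Ba b l (2 * k + 3) =
        P b l (2 * k + 1) * P b l (2 * k + 3) - (((2 * (k : K)) + 3) / (2 * k + 1) * l) •
          (P b l (2 * k + 1) * P b l (2 * k + 1)) := by
      rw [smul_eq_C_mul, Ba]
      push_cast
      ring
    rw [e, map_sub, map_smul, La_PP b l _ _ (by omega), La_PP b l _ _ (by omega),
      if_neg (by omega), if_pos rfl, smul_eq_mul]
    ring
  rw [h1, h2]
  have hk : (2 * (k : K) + 1) ≠ 0 := by exact_mod_cast (by omega : 2 * k + 1 ≠ 0)
  simp only [smul_eq_mul]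
  field_simp
  ring

/-- the skew Hankel Pfaffian of the arcsine functional -/
theorem pf_arc [CharZero K] (n : ℕ) :
    pf (2 * (n + 1)) (Matrix.of fun i j : Fin (2 * (n + 1)) =>
      (((j : ℕ) : K) - ((i : ℕ) : K)) * La b l (X ^ ((i : ℕ) + (j : ℕ) - 1))) =
    2 ^ n * l ^ (n * (n + 1)) * (2 * n + 1) * ∏ k ∈ range n, (4 * (k : K) + 3) := by
  have h1 : (Matrix.of fun i j : Fin (2 * (n + 1)) =>
      (((j : ℕ) : K) - ((i : ℕ) : K)) * La b l (X ^ ((i : ℕ) + (j : ℕ) - 1))) =
      Matrix.of fun i j : Fin (2 * (n + 1)) => sk (La b l) (X ^ (i : ℕ)) (X ^ (j : ℕ)) := by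
    ext i j
    rw [Matrix.of_apply, Matrix.of_apply, sk_monomials]
  rw [h1, pf_change' (La b l) (Ba b l) (Mon_Ba b l),
    pf_tri (fun i j => sk (La b l) (Ba b l i) (Ba b l j)) (fun i j => sk_skew _ _ _)
      (fun i => sk_self _ _) (fun i d => sk_Ba_far b l i d)]
  rw [prod_range_succ', mul_zero, zero_add, sk_Ba_zero, mul_one]
  simp only [sk_Ba_even]
  clear h1
  induction n with
  | zero => simp
  | succ n ih =>
    rw [prod_range_succ, ih, prod_range_succ]
    have hk : (2 * (n : K) + 1) ≠ 0 := by exact_mod_cast (by omega : 2 * n + 1 ≠ 0)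
    have e : (n + 1) * (n + 1 + 1) = n * (n + 1) + 2 * (n + 1) := by ring
    rw [e, pow_add, pow_succ]
    push_cast
    field_simp
    ring

end arcsine

end Pool.Agent.N340.PF
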