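import Pool.Agent.N340.PF.Mom

/-!
# The four Pfaffians
-/

set_option autoImplicit false

namespace Pool.Agent.N340.PF

open Finset Polynomial Pool.Agent.Helper929 Pool.Agent.N337

lemma Pf_eq {R : Type*} [CommRing R] [Algebra ℚ R] (n : ℕ)
    (A : Matrix (Fin (2 * n)) (Fin (2 * n)) R) (hA : ∀ i j, A i j = - A j i) :
    Pf n A = pf (2 * n) A := by
  have h := pfSum_eq n A hA
  have h1 : Pf n A = algebraMap ℚ R (1 / (2 ^ n * (n.factorial : ℚ))) * pfSum n A := rfl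
  have h2 : (n.factorial : ℚ) ≠ 0 := by exact_mod_cast n.factorial_ne_zero
  have h3 : (2 ^ n * ((n.factorial : ℕ) : R)) = algebraMap ℚ R (2 ^ n * (n.factorial : ℚ)) := by
    rw [map_mul, map_pow, map_natCast, map_ofNat]
  rw [h1, h, h3, ← mul_assoc, ← map_mul]
  have h4 : 1 / (2 ^ n * (n.factorial : ℚ)) * (2 ^ n * (n.factorial : ℚ)) = 1 := by
    field_simp
  rw [h4, map_one, one_mul]

lemma skewHankel_skew {R : Type*} [CommRing R] [Algebra ℚ R] (x : ℕ → R) (s n : ℕ)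
    (i j : Fin (2 * n)) : skewHankel x s n i j = - skewHankel x s n j i := by
  unfold skewHankel
  rw [Matrix.of_apply, Matrix.of_apply, add_comm (((i : ℕ) + 1)) (((j : ℕ) + 1))]
  ring

/-- moments with index `i + j - 3` -/
lemma hankel_three (x : ℕ → ℚ) (n : ℕ) : skewHankel x 3 n =
    Matrix.of fun i j : Fin (2 * n) =>
      (((j : ℕ) : ℚ) - ((i : ℕ) : ℚ)) * x ((i : ℕ) + (j : ℕ) - 1) := by
  ext i j
  unfold skewHankel
  rw [Matrix.of_apply, Matrix.of_apply,
    show (i : ℕ) + 1 + ((j : ℕ) + 1) - 3 = (i : ℕ) + (j : ℕ) - 1 by omega]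
  push_cast
  ring

/-- moments with index `i + j - 2` -/
lemma hankel_two (x y : ℕ → ℚ) (hy : ∀ m, y (m + 1) = x m) (n : ℕ) : skewHankel y 2 n =
    Matrix.of fun i j : Fin (2 * n) =>
      (((j : ℕ) : ℚ) - ((i : ℕ) : ℚ)) * x ((i : ℕ) + (j : ℕ) - 1) := by
  ext i j
  unfold skewHankel
  rw [Matrix.of_apply, Matrix.of_apply,
    show (i : ℕ) + 1 + ((j : ℕ) + 1) - 2 = (i : ℕ) + (j : ℕ) by omega]
  rcases Nat.eq_zero_or_pos ((i : ℕ) + (j : ℕ)) with h | h
  · have hi : (i : ℕ) = 0 := by omega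
    have hj : (j : ℕ) = 0 := by omega
    rw [hi, hj]
    simp
  · obtain ⟨m, hm⟩ := Nat.exists_eq_add_of_le' h
    rw [hm, hy, Nat.add_sub_cancel]
    push_cast
    ring

theorem motzkin (n : ℕ) : Pf n (skewHankel mot 3 n) = ∏ k ∈ range n, (4 * (k : ℚ) + 1) := by
  rw [Pf_eq n _ (skewHankel_skew _ _ _), hankel_three]
  have h := pf_semi (1 : ℚ) 1 1 n
  simp only [Ls_mot] at h
  rw [h]
  simp

theorem schroeder (n : ℕ) : Pf n (skewHankel sch 2 n) =
    2 ^ n ^ 2 * ∏ k ∈ range n, (4 * (k : ℚ) + 1) := by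
  rw [Pf_eq n _ (skewHankel_skew _ _ _), hankel_two (fun m => sch (m + 1)) sch (fun _ => rfl)]
  have h := pf_semi (3 : ℚ) 2 2 n
  simp only [Ls_sch] at h
  rw [h, ← pow_add]
  congr 2
  rcases n with _ | n
  · rfl
  · rw [Nat.add_sub_cancel]; ring

lemma sum_shift {M : Type*} [AddCommMonoid M] (f : ℕ → M) (n : ℕ) :
    ∑ k ∈ Icc 1 n, f k = ∑ j ∈ range n, f (j + 1) := by
  induction n with
  | zero => simp
  | succ n ih => rw [Finset.sum_Icc_succ_top (by omega), ih, sum_range_succ]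

lemma nar_eval (a : ℚ) (m : ℕ) : (nar (m + 1)).eval a = Ls (1 + a) a a (X ^ m) := by
  rw [Ls_nar, nar, if_neg (by omega), sum_shift, eval_finsetSum, mul_sum]
  apply sum_congr rfl
  intro j _
  rw [eval_mul, eval_C, eval_pow, eval_X, Nat.add_sub_cancel, pow_succ]
  push_cast
  ring

lemma Pf_eval (a : ℚ) (n : ℕ) (A : Matrix (Fin (2 * n)) (Fin (2 * n)) ℚ[X]) :
    (Pf n A).eval a = Pf n (Matrix.of fun i j => (A i j).eval a) := by
  unfold Pf
  rw [← coe_evalRingHom, map_mul, map_sum]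
  simp only [map_mul, map_prod, map_intCast, coe_evalRingHom, Matrix.of_apply]
  congr 1
  simp

theorem narayana (n : ℕ) : Pf n (skewHankel nar 2 n) =
    X ^ n ^ 2 * ∏ k ∈ range n, (4 * (k : ℚ[X]) + 1) := by
  apply Polynomial.funext
  intro a
  rw [Pf_eval]
  have h0 : (Matrix.of fun i j => (skewHankel nar 2 n i j).eval a) =
      skewHankel (fun m => (nar m).eval a) 2 n := by
    ext i j
    unfold skewHankel
    rw [Matrix.of_apply, Matrix.of_apply, Matrix.of_apply, eval_mul, eval_sub, eval_natCast,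
      eval_natCast]
  rw [h0, Pf_eq n _ (skewHankel_skew _ _ _),
    hankel_two (fun m => Ls (1 + a) a a (X ^ m)) _ (fun m => nar_eval a m), pf_semi, ← pow_add]
  have h1 : n + n * (n - 1) = n ^ 2 := by
    rcases n with _ | n
    · rfl
    · rw [Nat.add_sub_cancel]; ring
  rw [h1, eval_mul, eval_pow, eval_X, eval_prod]
  congr 1
  apply prod_congr rfl
  intro k _
  simp

theorem delannoy (n : ℕ) (hn : 1 ≤ n) : Pf n (skewHankel del 3 n) =
    2 ^ (n ^ 2 - 1) * (2 * (n : ℚ) - 1) * ∏ k ∈ Icc 1 (n - 1), (4 * (k : ℚ) - 1) := by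
  obtain ⟨m, rfl⟩ := Nat.exists_eq_add_of_le' hn
  rw [Pf_eq (m + 1) _ (skewHankel_skew _ _ _), hankel_three]
  have h := pf_arc (3 : ℚ) 2 m
  simp only [La_del] at h
  rw [h, ← pow_add, Nat.add_sub_cancel]
  have h1 : m + m * (m + 1) = (m + 1) ^ 2 - 1 := by
    have : (m + 1) ^ 2 = m + m * (m + 1) + 1 := by ring
    omega
  have h2 : ∏ k ∈ range m, (4 * (k : ℚ) + 3) = ∏ k ∈ Icc 1 m, (4 * (k : ℚ) - 1) := by
    clear h h1 hn
    induction m with
    | zero => simp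
    | succ m ih =>
      rw [prod_range_succ, ih, Finset.prod_Icc_succ_top (by omega)]
      push_cast
      ring
  rw [h1, h2]
  push_cast
  ring

end Pool.Agent.N340.PF
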