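import Pool.Agent.N340.PF.Defs
import Pool.Agent.N340.PF.Form

/-!
# The moments
-/

set_option autoImplicit false

namespace Pool.Agent.N340.PF

open Finset Polynomial Pool.Agent.Helper929 Pool.Agent.N337.Asc

section

variable {K : Type*} [Field K]

lemma Xb_prod (a : K) : Xb (1 + a) a = (t + 1) * (kap a * s + 1) := by
  rw [Xb, map_add, map_one]
  linear_combination (- kap a) * (ts (K := K))

/-- the constant term of `((1 + z) (1 + a / z)) ^ m z ^ (-r)` -/
lemma CT_prod (a : K) (m r : ℕ) : CT (Xb (1 + a) a ^ m * s ^ r) =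
    ∑ j ∈ range (m + 1), (m.choose (j + r) : K) * (m.choose j : K) * a ^ j := by
  rw [Xb_prod, mul_pow, add_pow, add_pow, Finset.sum_mul_sum, Finset.sum_mul]
  simp only [Finset.sum_mul]
  rw [Finset.sum_comm, map_sum]
  apply Finset.sum_congr rfl
  intro j hj
  rw [map_sum]
  have h : ∀ i : ℕ, CT (t ^ i * 1 ^ (m - i) * ((m.choose i : ℕ) : LaurentPolynomial K) *
      ((kap a * s) ^ j * 1 ^ (m - j) * ((m.choose j : ℕ) : LaurentPolynomial K)) * s ^ r) =
      if i = j + r then (m.choose i : K) * (m.choose j : K) * a ^ j else 0 := by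
    intro i
    have e : t ^ i * 1 ^ (m - i) * ((m.choose i : ℕ) : LaurentPolynomial K) *
      ((kap a * s) ^ j * 1 ^ (m - j) * ((m.choose j : ℕ) : LaurentPolynomial K)) * s ^ r =
      kap ((m.choose i : K) * (m.choose j : K) * a ^ j) * (t ^ i * s ^ (j + r)) := by
      rw [map_mul, map_mul, map_pow, map_natCast, map_natCast]
      ring
    rw [e, CT_kap_mul, CT_mono]
    split_ifs <;> ring
  simp only [h]
  rw [Finset.sum_ite_eq']
  split_ifs with h'
  · rfl
  · rw [Nat.choose_eq_zero_of_lt (show m < j + r by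
      rw [mem_range] at h'; omega)]
    simp

lemma Ls_mom (b l c : K) (m : ℕ) : Ls b l c (X ^ m) =
    c * (CT (Xb b l ^ m * s ^ 0) - l * CT (Xb b l ^ m * s ^ 2)) := by
  have e : Xb b l ^ m * ((t - kap l * s) * s) = Xb b l ^ m * s ^ 0 -
      kap l * (Xb b l ^ m * s ^ 2) := by
    linear_combination Xb b l ^ m * (ts (K := K))
  rw [Ls_apply, map_pow, Phi_X, e, map_sub, CT_kap_mul]

lemma La_mom (b l : K) (m : ℕ) : La b l (X ^ m) = CT (Xb b l ^ m * s ^ 0) := by
  rw [La_apply, map_pow, Phi_X, pow_zero, mul_one]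

lemma ratio [CharZero K] (m j : ℕ) (h : j < m) :
    ((m.choose (j + 1) : K) * (m.choose (j + 1) : K) - (m.choose (j + 2) : K) * (m.choose j : K)) =
    ((m + 1).choose (j + 2) : K) * ((m + 1).choose (j + 1) : K) / (m + 1) := by
  have h1 : (m.choose (j + 1) : K) * (j + 1) = m.choose j * (m - j) := by
    have := Nat.choose_succ_right_eq m j
    have h2 := congrArg (fun x : ℕ => (x : K)) this
    simp only [Nat.cast_mul, Nat.cast_sub h.le] at h2
    push_cast at h2
    exact h2
  have h2 : (m.choose (j + 2) : K) * (j + 2) = m.choose (j + 1) * (m - j - 1) := by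
    have := Nat.choose_succ_right_eq m (j + 1)
    have h2 := congrArg (fun x : ℕ => (x : K)) this
    simp only [Nat.cast_mul, Nat.cast_sub (show j + 1 ≤ m by omega)] at h2
    push_cast at h2
    linear_combination h2
  have e1 : ((m + 1).choose (j + 2) : K) = m.choose (j + 1) + m.choose (j + 2) := by
    rw [Nat.choose_succ_succ' m (j + 1)]; push_cast; ring
  have e2 : ((m + 1).choose (j + 1) : K) = m.choose j + m.choose (j + 1) := by
    rw [Nat.choose_succ_succ' m j]; push_cast; ring
  have hm : (m : K) + 1 ≠ 0 := by exact_mod_cast Nat.succ_ne_zero m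
  have hj2 : (j : K) + 2 ≠ 0 := by exact_mod_cast (by omega : j + 2 ≠ 0)
  have hmj : (m : K) - j ≠ 0 := by
    rw [sub_ne_zero]
    exact_mod_cast (by omega : m ≠ j)
  have hr : (m.choose j : K) = m.choose (j + 1) * (j + 1) / (m - j) := by
    rw [eq_div_iff hmj, h1]
  have hq : (m.choose (j + 2) : K) = m.choose (j + 1) * (m - j - 1) / (j + 2) := by
    rw [eq_div_iff hj2, h2]
  rw [e1, e2, hr, hq]
  field_simp
  ring

/-- the moments of the semicircle functional with mean `1 + a` and variance `a` -/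
lemma Ls_nar [CharZero K] (a c : K) (m : ℕ) : Ls (1 + a) a c (X ^ m) =
    c * ∑ j ∈ range (m + 1), ((m + 1).choose (j + 1) : K) * ((m + 1).choose j : K) / (m + 1) *
      a ^ j := by
  rw [Ls_mom, CT_prod, CT_prod]
  congr 1
  rw [sum_range_succ', sum_range_succ (n := m), sum_range_succ' (n := m)]
  have hm : (m : K) + 1 ≠ 0 := by exact_mod_cast Nat.succ_ne_zero m
  rw [Nat.choose_eq_zero_of_lt (show m < m + 2 by omega)]
  have h0 : ((m + 1).choose (0 + 1) : K) * ((m + 1).choose 0 : K) / (m + 1) * a ^ 0 = 1 := by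
    rw [zero_add, Nat.choose_one_right, Nat.choose_zero_right]
    push_cast
    field_simp
  have h0' : (m.choose (0 + 0) : K) * (m.choose 0 : K) * a ^ 0 = 1 := by simp
  rw [h0, h0', Nat.cast_zero, zero_mul, zero_mul, add_zero, mul_sum]
  rw [add_sub_right_comm, ← sum_sub_distrib]
  congr 1
  apply sum_congr rfl
  intro j hj
  rw [mem_range] at hj
  have := ratio (K := K) m j hj
  rw [← this]
  rw [show j + 1 + 0 = j + 1 by ring]
  ring

lemma central (i r : ℕ) : CT (((t : LaurentPolynomial K) + s) ^ i * s ^ (2 * r)) =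
    if Even i then (i.choose (i / 2 + r) : K) else 0 := by
  rw [add_pow, Finset.sum_mul, map_sum]
  have h : ∀ j ∈ range (i + 1), CT (t ^ j * s ^ (i - j) * ((i.choose j : ℕ) : LaurentPolynomial K) *
      s ^ (2 * r)) = if j = i - j + 2 * r then (i.choose j : K) else 0 := by
    intro j _
    have e : t ^ j * s ^ (i - j) * ((i.choose j : ℕ) : LaurentPolynomial K) * s ^ (2 * r) =
        kap (i.choose j : K) * (t ^ j * s ^ (i - j + 2 * r)) := by
      rw [map_natCast]; ring
    rw [e, CT_kap_mul, CT_mono]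
    split_ifs <;> ring
  rw [sum_congr rfl h]
  by_cases he : Even i
  · rw [if_pos he]
    obtain ⟨k, rfl⟩ := he
    rw [show (k + k) / 2 = k by omega]
    by_cases hk : k + r ≤ k + k
    · rw [sum_eq_single (k + r)]
      · rw [if_pos (by omega)]
      · intro j hj hne
        rw [mem_range] at hj
        rw [if_neg (by omega)]
      · intro h'
        rw [mem_range] at h'
        omega
    · rw [Nat.choose_eq_zero_of_lt (by omega), Nat.cast_zero]
      apply sum_eq_zero
      intro j hj
      rw [mem_range] at hj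
      rw [if_neg (by omega)]
  · rw [if_neg he]
    apply sum_eq_zero
    intro j hj
    rw [mem_range] at hj
    rw [if_neg]
    intro h'
    apply he
    exact ⟨j - r, by omega⟩

lemma cat_eq (k : ℕ) : ((2 * k).choose k : ℚ) - ((2 * k).choose (k + 1) : ℚ) = cat k := by
  unfold cat
  have h := Nat.choose_succ_right_eq (2 * k) k
  rw [show 2 * k - k = k by omega] at h
  have h2 : ((2 * k).choose (k + 1) : ℚ) * (k + 1) = (2 * k).choose k * k := by exact_mod_cast h
  have hk : (k : ℚ) + 1 ≠ 0 := by exact_mod_cast Nat.succ_ne_zero k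
  rw [eq_div_iff hk]
  linear_combination -h2

lemma sum_even (f : ℕ → ℚ) (N : ℕ) : ∑ i ∈ range (2 * N), (if Even i then f i else 0) =
    ∑ k ∈ range N, f (2 * k) := by
  induction N with
  | zero => simp
  | succ N ih =>
    rw [show 2 * (N + 1) = 2 * N + 1 + 1 by ring, sum_range_succ, sum_range_succ, ih,
      sum_range_succ, if_pos (even_two_mul N), if_neg (by
        rw [Nat.not_even_iff_odd]; exact odd_two_mul_add_one N), add_zero]

/-- the moments of the semicircle functional with mean `1` and variance `1` -/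
lemma Ls_mot (m : ℕ) : Ls (1 : ℚ) 1 1 (X ^ m) = mot m := by
  rw [Ls_mom, one_mul, one_mul]
  have hX : Xb (1 : ℚ) 1 = (t + s) + 1 := by
    rw [Xb, map_one]; ring
  have hr : ∀ r : ℕ, CT (Xb (1 : ℚ) 1 ^ m * s ^ (2 * r)) =
      ∑ i ∈ range (m + 1), (if Even i then (m.choose i : ℚ) * (i.choose (i / 2 + r) : ℚ) else 0) := by
    intro r
    rw [hX, add_pow, sum_mul, map_sum]
    apply sum_congr rfl
    intro i _
    have e : (t + s) ^ i * 1 ^ (m - i) * ((m.choose i : ℕ) : LaurentPolynomial ℚ) * s ^ (2 * r) =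
        kap (m.choose i : ℚ) * ((t + s) ^ i * s ^ (2 * r)) := by
      rw [map_natCast]; ring
    rw [e, CT_kap_mul, central]
    split_ifs <;> ring
  have h0 := hr 0
  have h1 := hr 1
  rw [mul_zero] at h0
  rw [mul_one] at h1
  rw [h0, h1, ← sum_sub_distrib]
  have h2 : ∑ i ∈ range (m + 1), ((if Even i then (m.choose i : ℚ) * (i.choose (i / 2 + 0) : ℚ)
      else 0) - if Even i then (m.choose i : ℚ) * (i.choose (i / 2 + 1) : ℚ) else 0) =
      ∑ i ∈ range (2 * (m + 1)), (if Even i then (m.choose i : ℚ) * cat (i / 2) else 0) := by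
    have h3 : ∑ i ∈ range (2 * (m + 1)), (if Even i then (m.choose i : ℚ) * cat (i / 2) else 0) =
        ∑ i ∈ range (m + 1), (if Even i then (m.choose i : ℚ) * cat (i / 2) else 0) := by
      symm
      apply sum_subset
      · intro i hi
        rw [mem_range] at hi ⊢
        omega
      · intro i _ hi
        rw [mem_range] at hi
        rw [Nat.choose_eq_zero_of_lt (by omega)]
        simp
    rw [h3]
    apply sum_congr rfl
    intro i _
    split_ifs with he
    · obtain ⟨k, rfl⟩ := he
      rw [show (k + k) / 2 = k by omega, ← cat_eq, show k + k = 2 * k by ring, add_zero]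
      ring
    · ring
  rw [h2, sum_even (fun i => (m.choose i : ℚ) * cat (i / 2))]
  unfold mot
  apply sum_congr rfl
  intro k _
  rw [show 2 * k / 2 = k by omega]

lemma sumcc (N i : ℕ) (hi : i ≤ N) : ∑ u ∈ range (N + 1), (N.choose u : ℚ) * (u.choose i : ℚ) =
    (N.choose i : ℚ) * 2 ^ (N - i) := by
  obtain ⟨d, rfl⟩ := Nat.exists_eq_add_of_le hi
  rw [show i + d + 1 = i + (d + 1) by ring, Finset.sum_range_add]
  have h0 : ∑ x ∈ range i, ((i + d).choose x : ℚ) * (x.choose i : ℚ) = 0 := by
    apply sum_eq_zero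
    intro x hx
    rw [mem_range] at hx
    rw [Nat.choose_eq_zero_of_lt hx]
    simp
  rw [h0, zero_add, show i + d - i = d by omega]
  have h1 : ∀ x ∈ range (d + 1), ((i + d).choose (i + x) : ℚ) * ((i + x).choose i : ℚ) =
      ((i + d).choose i : ℚ) * (d.choose x : ℚ) := by
    intro x hx
    rw [mem_range] at hx
    have h4 := Nat.choose_mul (n := i + d) (k := i + x) (s := i) (by omega)
    rw [show i + d - i = d by omega, show i + x - i = x by omega] at h4
    exact_mod_cast h4
  rw [sum_congr rfl h1, ← mul_sum]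
  congr 1
  have := Nat.sum_range_choose d
  exact_mod_cast this

/-- the moments of the arcsine functional with parameters `3`, `2` -/
lemma La_del (m : ℕ) : La (3 : ℚ) 2 (X ^ m) = del m := by
  rw [La_mom, show (3 : ℚ) = 1 + 2 by norm_num, CT_prod]
  simp only [add_zero]
  unfold del
  have h1 : ∀ k ∈ range (m + 1), (m.choose k : ℚ) * ((m + k).choose k : ℚ) =
      ∑ j ∈ range (m + 1), (m.choose j : ℚ) * ((m.choose k : ℚ) * (k.choose j : ℚ)) := by
    intro k hk
    rw [mem_range] at hk
    have h := Nat.add_choose_eq k m k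
    rw [add_comm m k, h, Finset.Nat.sum_antidiagonal_eq_sum_range_succ_mk]
    push_cast
    rw [mul_sum]
    have h3 : ∑ j ∈ range (m + 1), (m.choose j : ℚ) * ((m.choose k : ℚ) * (k.choose j : ℚ)) =
        ∑ j ∈ range (k + 1), (m.choose j : ℚ) * ((m.choose k : ℚ) * (k.choose j : ℚ)) := by
      symm
      apply sum_subset
      · intro i hi
        rw [mem_range] at hi ⊢
        omega
      · intro i _ hi
        rw [mem_range] at hi
        rw [Nat.choose_eq_zero_of_lt (show k < i by omega)]
        simp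
    rw [h3, ← sum_range_reflect]
    apply sum_congr rfl
    intro j hj
    rw [mem_range] at hj
    rw [show k + 1 - 1 - j = k - j by omega, show k - (k - j) = j by omega,
      Nat.choose_symm (by omega : j ≤ k)]
    ring
  rw [sum_congr rfl h1, sum_comm]
  have h2 : ∀ j ∈ range (m + 1), ∑ k ∈ range (m + 1), (m.choose j : ℚ) *
      ((m.choose k : ℚ) * (k.choose j : ℚ)) = (m.choose j : ℚ) * (m.choose j : ℚ) * 2 ^ (m - j) := by
    intro j hj
    rw [mem_range] at hj
    rw [← mul_sum, sumcc m j (by omega)]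
    ring
  rw [sum_congr rfl h2, ← sum_range_reflect]
  apply sum_congr rfl
  intro j hj
  rw [mem_range] at hj
  rw [show m + 1 - 1 - j = m - j by omega, Nat.choose_symm (by omega : j ≤ m)]

/-- the moments of the semicircle functional of mean `3`, variance `2`, mass `2` -/
lemma Ls_sch (m : ℕ) : Ls (3 : ℚ) 2 2 (X ^ m) = sch (m + 1) := by
  rw [show (3 : ℚ) = 1 + 2 by norm_num, Ls_nar]
  have hm1 : (m : ℚ) + 1 ≠ 0 := by exact_mod_cast Nat.succ_ne_zero m
  have hm2 : (m : ℚ) + 2 ≠ 0 := by exact_mod_cast Nat.succ_ne_zero (m + 1)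
  -- `(m + 2) S_{m+1} = ∑_k binom(m + 1 + k, k) binom(m + 2, k + 1)`
  have h1 : (m + 2 : ℚ) * sch (m + 1) = ∑ k ∈ range (m + 2),
      ((m + 2).choose (k + 1) : ℚ) * ((m + (k + 1)).choose (m + 1) : ℚ) := by
    unfold sch
    rw [mul_sum]
    apply sum_congr rfl
    intro k hk
    rw [mem_range] at hk
    unfold cat
    have hk1 : (k : ℚ) + 1 ≠ 0 := by exact_mod_cast Nat.succ_ne_zero k
    have e1 := Nat.choose_mul (n := m + 1 + k) (k := 2 * k) (s := k) (by omega)
    rw [show m + 1 + k - k = m + 1 by omega, show 2 * k - k = k by omega] at e1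
    have e1' : ((m + 1 + k).choose (2 * k) : ℚ) * ((2 * k).choose k : ℚ) =
      ((m + 1 + k).choose k : ℚ) * ((m + 1).choose k : ℚ) := by exact_mod_cast e1
    have e2 := Nat.add_one_mul_choose_eq (m + 1) k
    have e2' : ((m : ℚ) + 2) * ((m + 1).choose k : ℚ) = ((m + 2).choose (k + 1) : ℚ) * (k + 1) := by
      have := congrArg (fun x : ℕ => (x : ℚ)) e2
      push_cast at this
      linear_combination this
    have e3 : (m + (k + 1)).choose (m + 1) = (m + 1 + k).choose k := by
      rw [show m + (k + 1) = m + 1 + k by ring]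
      exact Nat.choose_symm_add
    rw [e3]
    field_simp
    linear_combination (m + 2 : ℚ) * e1' + ((m + 1 + k).choose k : ℚ) * e2'
  have h2 : ∀ k : ℕ, ((m + (k + 1)).choose (m + 1) : ℚ) =
      ∑ j ∈ range (m + 1), (m.choose j : ℚ) * ((k + 1).choose (m + 1 - j) : ℚ) := by
    intro k
    have h := Nat.add_choose_eq m (k + 1) (m + 1)
    rw [h, Finset.Nat.sum_antidiagonal_eq_sum_range_succ_mk, sum_range_succ]
    push_cast
    simp
  have h3 : (m + 2 : ℚ) * sch (m + 1) = ∑ j ∈ range (m + 1), (m.choose j : ℚ) *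
      (((m + 2).choose (m + 1 - j) : ℚ) * 2 ^ (j + 1)) := by
    rw [h1]
    simp only [h2, mul_sum]
    rw [sum_comm]
    apply sum_congr rfl
    intro j hj
    rw [mem_range] at hj
    have h4 := sumcc (m + 2) (m + 1 - j) (by omega)
    rw [sum_range_succ', show m + 2 - (m + 1 - j) = j + 1 by omega,
      Nat.choose_eq_zero_of_lt (show 0 < m + 1 - j by omega)] at h4
    rw [← h4, Nat.cast_zero, mul_zero, add_zero, mul_sum]
    apply sum_congr rfl
    intro k _
    ring
  have h5 : (m + 2 : ℚ) * sch (m + 1) = (m + 2) * (2 * ∑ j ∈ range (m + 1),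
      ((m + 1).choose (j + 1) : ℚ) * ((m + 1).choose j : ℚ) / (m + 1) * 2 ^ j) := by
    rw [h3, mul_sum, mul_sum]
    apply sum_congr rfl
    intro j hj
    rw [mem_range] at hj
    have e0 : (m + 2).choose (m + 1 - j) = (m + 2).choose (j + 1) := by
      rw [← Nat.choose_symm (show j + 1 ≤ m + 2 by omega)]
      congr 1
      omega
    have e1 := Nat.add_one_mul_choose_eq (m + 1) j
    have e1' : ((m : ℚ) + 2) * ((m + 1).choose j : ℚ) = ((m + 2).choose (j + 1) : ℚ) * (j + 1) := by
      have := congrArg (fun x : ℕ => (x : ℚ)) e1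
      push_cast at this
      linear_combination this
    have e2 := Nat.add_one_mul_choose_eq m j
    have e2' : ((m : ℚ) + 1) * (m.choose j : ℚ) = ((m + 1).choose (j + 1) : ℚ) * (j + 1) := by
      have := congrArg (fun x : ℕ => (x : ℚ)) e2
      push_cast at this
      linear_combination this
    rw [e0]
    field_simp
    rw [pow_succ]
    linear_combination (2 ^ j * 2 * ((m + 2).choose (j + 1) : ℚ)) * e2' -
      (2 ^ j * 2 * ((m + 1).choose (j + 1) : ℚ)) * e1'
  exact (mul_left_cancel₀ hm2 h5).symm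

end

end Pool.Agent.N340.PF
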